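import Pool.Agent.Lib.MP_131fce_co.Flag.Reps7
import Pool.Agent.Lib.MP_131fce_co.FlagH.K9.Cl0

/-!
# Classification of the graphs on 8 vertices
-/

set_option autoImplicit false
set_option maxRecDepth 100000

namespace Pool.Agent.ICyc.FlagH.K9

open Pool.Agent.ICyc.FlagH Pool.Agent.ICyc.Flag

theorem okin : ∀ c ∈ reps7, OkM 7 c := okL_mem _ _ (by decide +kernel)

theorem cl_eq : reps7 = cl0 := by decide +kernel

theorem stepU : ∀ H ∈ reps7, ∃ tab, clsW 7 uu 410 H tab = true := by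
  intro H hH
  rw [cl_eq] at hH
  exact cs0 H hH

theorem clsU {V : Type} {A : V → V → ℕ} (h : AdjOK A) : Cls A 8 (InT uu 410) :=
  clsW_step (by norm_num) h.1 h.2.1 h.2.2.1 h.2.2.2 (cls7 h) okin stepU

end Pool.Agent.ICyc.FlagH.K9
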