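import Pool.Agent.Lib.MP_131fce_co.FlagH.K9.Cy
import Pool.Agent.Lib.MP_131fce_co.FlagH.K9.TabU
import Pool.Agent.Lib.MP_131fce_co.FlagH.ClsW

/-!
# Hosts, part 0
-/

set_option autoImplicit false
set_option maxRecDepth 100000

namespace Pool.Agent.ICyc.FlagH.K9

open Pool.Agent.ICyc.FlagH Pool.Agent.ICyc.Flag

theorem hn0_0 : ∀ i, 0 ≤ i → i < 150 → HP 8 tb cy kk uu i :=
  glue (hostR_rng (by decide +kernel : hostR 8 tb cy kk uu 0 1 = true) rfl)
  (glue (hostR_rng (by decide +kernel : hostR 8 tb cy kk uu 1 5 = true) rfl)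
  (glue (hostR_rng (by decide +kernel : hostR 8 tb cy kk uu 6 19 = true) rfl)
  (glue (hostR_rng (by decide +kernel : hostR 8 tb cy kk uu 25 1 = true) rfl)
  (glue (hostR_rng (by decide +kernel : hostR 8 tb cy kk uu 26 4 = true) rfl)
  (glue (hostR_rng (by decide +kernel : hostR 8 tb cy kk uu 30 8 = true) rfl)
  (glue (hostR_rng (by decide +kernel : hostR 8 tb cy kk uu 38 2 = true) rfl)
  (glue (hostR_rng (by decide +kernel : hostR 8 tb cy kk uu 40 5 = true) rfl)
  (glue (hostR_rng (by decide +kernel : hostR 8 tb cy kk uu 45 7 = true) rfl)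
  (glue (hostR_rng (by decide +kernel : hostR 8 tb cy kk uu 52 12 = true) rfl)
  (glue (hostR_rng (by decide +kernel : hostR 8 tb cy kk uu 64 19 = true) rfl)
  (glue (hostR_rng (by decide +kernel : hostR 8 tb cy kk uu 83 13 = true) rfl)
  (glue (hostR_rng (by decide +kernel : hostR 8 tb cy kk uu 96 9 = true) rfl)
  (glue (hostR_rng (by decide +kernel : hostR 8 tb cy kk uu 105 20 = true) rfl)
  (glue (hostR_rng (by decide +kernel : hostR 8 tb cy kk uu 125 16 = true) rfl)
  (glue (hostR_rng (by decide +kernel : hostR 8 tb cy kk uu 141 4 = true) rfl)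
  (glue (hostR_rng (by decide +kernel : hostR 8 tb cy kk uu 145 1 = true) rfl)
  (glue (hostR_rng (by decide +kernel : hostR 8 tb cy kk uu 146 1 = true) rfl)
  (glue (hostR_rng (by decide +kernel : hostR 8 tb cy kk uu 147 1 = true) rfl)
  (hostR_rng (by decide +kernel : hostR 8 tb cy kk uu 148 2 = true) rfl)))))))))))))))))))

theorem hn0_1 : ∀ i, 0 ≤ i → i < 243 → HP 8 tb cy kk uu i :=
  glue hn0_0
  (glue (hostR_rng (by decide +kernel : hostR 8 tb cy kk uu 150 6 = true) rfl)
  (glue (hostR_rng (by decide +kernel : hostR 8 tb cy kk uu 156 7 = true) rfl)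
  (glue (hostR_rng (by decide +kernel : hostR 8 tb cy kk uu 163 9 = true) rfl)
  (glue (hostR_rng (by decide +kernel : hostR 8 tb cy kk uu 172 11 = true) rfl)
  (glue (hostR_rng (by decide +kernel : hostR 8 tb cy kk uu 183 15 = true) rfl)
  (glue (hostR_rng (by decide +kernel : hostR 8 tb cy kk uu 198 1 = true) rfl)
  (glue (hostR_rng (by decide +kernel : hostR 8 tb cy kk uu 199 1 = true) rfl)
  (glue (hostR_rng (by decide +kernel : hostR 8 tb cy kk uu 200 1 = true) rfl)
  (glue (hostR_rng (by decide +kernel : hostR 8 tb cy kk uu 201 1 = true) rfl)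
  (glue (hostR_rng (by decide +kernel : hostR 8 tb cy kk uu 202 1 = true) rfl)
  (glue (hostR_rng (by decide +kernel : hostR 8 tb cy kk uu 203 1 = true) rfl)
  (glue (hostR_rng (by decide +kernel : hostR 8 tb cy kk uu 204 1 = true) rfl)
  (glue (hostR_rng (by decide +kernel : hostR 8 tb cy kk uu 205 2 = true) rfl)
  (glue (hostR_rng (by decide +kernel : hostR 8 tb cy kk uu 207 2 = true) rfl)
  (glue (hostR_rng (by decide +kernel : hostR 8 tb cy kk uu 209 3 = true) rfl)
  (glue (hostR_rng (by decide +kernel : hostR 8 tb cy kk uu 212 3 = true) rfl)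
  (glue (hostR_rng (by decide +kernel : hostR 8 tb cy kk uu 215 3 = true) rfl)
  (glue (hostR_rng (by decide +kernel : hostR 8 tb cy kk uu 218 3 = true) rfl)
  (glue (hostR_rng (by decide +kernel : hostR 8 tb cy kk uu 221 4 = true) rfl)
  (hostR_rng (by decide +kernel : hostR 8 tb cy kk uu 225 18 = true) rfl))))))))))))))))))))

theorem hn0 : ∀ i, 0 ≤ i → i < 250 → HP 8 tb cy kk uu i :=
  glue hn0_1
  (glue (hostR_rng (by decide +kernel : hostR 8 tb cy kk uu 243 5 = true) rfl)
  (hostR_rng (by decide +kernel : hostR 8 tb cy kk uu 248 2 = true) rfl))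

end Pool.Agent.ICyc.FlagH.K9
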