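import Pool.Agent.Lib.MP_131fce_co.FlagH.K9.Cy
import Pool.Agent.Lib.MP_131fce_co.FlagH.K9.TabU
import Pool.Agent.Lib.MP_131fce_co.FlagH.ClsW

/-!
# Hosts, part 1
-/

set_option autoImplicit false
set_option maxRecDepth 100000

namespace Pool.Agent.ICyc.FlagH.K9

open Pool.Agent.ICyc.FlagH Pool.Agent.ICyc.Flag

theorem hn1_0 : ∀ i, 250 ≤ i → i < 408 → HP 8 tb cy kk uu i :=
  glue (hostR_rng (by decide +kernel : hostR 8 tb cy kk uu 250 17 = true) rfl)
  (glue (hostR_rng (by decide +kernel : hostR 8 tb cy kk uu 267 13 = true) rfl)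
  (glue (hostR_rng (by decide +kernel : hostR 8 tb cy kk uu 280 6 = true) rfl)
  (glue (hostR_rng (by decide +kernel : hostR 8 tb cy kk uu 286 17 = true) rfl)
  (glue (hostR_rng (by decide +kernel : hostR 8 tb cy kk uu 303 17 = true) rfl)
  (glue (hostR_rng (by decide +kernel : hostR 8 tb cy kk uu 320 1 = true) rfl)
  (glue (hostR_rng (by decide +kernel : hostR 8 tb cy kk uu 321 1 = true) rfl)
  (glue (hostR_rng (by decide +kernel : hostR 8 tb cy kk uu 322 1 = true) rfl)
  (glue (hostR_rng (by decide +kernel : hostR 8 tb cy kk uu 323 3 = true) rfl)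
  (glue (hostR_rng (by decide +kernel : hostR 8 tb cy kk uu 326 2 = true) rfl)
  (glue (hostR_rng (by decide +kernel : hostR 8 tb cy kk uu 328 3 = true) rfl)
  (glue (hostR_rng (by decide +kernel : hostR 8 tb cy kk uu 331 6 = true) rfl)
  (glue (hostR_rng (by decide +kernel : hostR 8 tb cy kk uu 337 5 = true) rfl)
  (glue (hostR_rng (by decide +kernel : hostR 8 tb cy kk uu 342 9 = true) rfl)
  (glue (hostR_rng (by decide +kernel : hostR 8 tb cy kk uu 351 24 = true) rfl)
  (glue (hostR_rng (by decide +kernel : hostR 8 tb cy kk uu 375 8 = true) rfl)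
  (glue (hostR_rng (by decide +kernel : hostR 8 tb cy kk uu 383 3 = true) rfl)
  (glue (hostR_rng (by decide +kernel : hostR 8 tb cy kk uu 386 15 = true) rfl)
  (glue (hostR_rng (by decide +kernel : hostR 8 tb cy kk uu 401 6 = true) rfl)
  (hostR_rng (by decide +kernel : hostR 8 tb cy kk uu 407 1 = true) rfl)))))))))))))))))))

theorem hn1 : ∀ i, 250 ≤ i → i < 410 → HP 8 tb cy kk uu i :=
  glue hn1_0
  (glue (hostR_rng (by decide +kernel : hostR 8 tb cy kk uu 408 1 = true) rfl)
  (hostR_rng (by decide +kernel : hostR 8 tb cy kk uu 409 1 = true) rfl))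

end Pool.Agent.ICyc.FlagH.K9
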