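import Pool.Agent.Lib.MP_131fce_co.FlagH.K9.Pl0
import Pool.Agent.Lib.MP_131fce_co.FlagH.K9.Pl1
import Pool.Agent.Lib.MP_131fce_co.FlagH.K9.Pl2

/-!
# The low order part is positive semidefinite
-/

set_option autoImplicit false
set_option maxRecDepth 100000

namespace Pool.Agent.ICyc.FlagH.K9

open Pool.Agent.ICyc.Flag

theorem lo_good : lo.good :=
  ⟨⟨⟨gml0, trivial⟩, ⟨⟨gml1, ⟨gml2, trivial⟩⟩, trivial⟩⟩, trivial⟩

end Pool.Agent.ICyc.FlagH.K9
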