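import Pool.Agent.Lib.MP_131fce_co.Flag.Reps7
import Pool.Agent.Lib.MP_131fce_co.FlagH.K9.ClsU
import Pool.Agent.Lib.MP_131fce_co.FlagH.K9.Ty0
import Pool.Agent.Lib.MP_131fce_co.FlagH.K9.Ty1
import Pool.Agent.Lib.MP_131fce_co.FlagH.K9.Tz0
import Pool.Agent.Lib.MP_131fce_co.FlagH.K9.Ho0
import Pool.Agent.Lib.MP_131fce_co.FlagH.K9.Ho1
import Pool.Agent.Lib.MP_131fce_co.FlagH.K9.LoGood

/-!
# The bound for `k = 9`
-/

set_option autoImplicit false
set_option maxRecDepth 100000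

namespace Pool.Agent.ICyc.FlagH.K9

open Pool.Agent.ICyc.FlagH Pool.Agent.ICyc.Flag

/-- codes of all types -/
def allT : List ℕ :=
  tc0 ++ (tc1 ++ (zg0))

theorem all_ok : ∀ c ∈ allT, TPr c :=
  faa tok0
    (faa tok1
    (zok0))

theorem sub_types : ∀ c ∈ reps7, c ∈ allT := subB_mem _ _ (by decide +kernel)

theorem types_ok : ∀ c ∈ reps7, TypeProp 7 c (fT tb off) (vlow 7 lo c) :=
  fun c hc => all_ok c (sub_types c hc) (okin c hc)

theorem hosts_all : ∀ i, 0 ≤ i → i < 410 → HP 8 tb cy kk uu i :=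
  glue hn0
  (hn1)

/-- triangle-free graphs have at most `(n / 9) ^ 9` induced cycles of length `9` -/
theorem bound9 (V : Type) [Fintype V] (G : SimpleGraph V) (hA : AdjOK (adjG G)) :
    (({S : Finset V | S.card = 9 ∧
          Nonempty (G.induce (S : Set V) ≃g SimpleGraph.cycleGraph 9)}.ncard : ℝ)
        ≤ ((Fintype.card V : ℝ) / ((9 : ℕ) : ℝ)) ^ 9) := by
  have e1 : pathTrie (2400000000 * (7 + 2) ^ (7 + 1)) [0, 1, 1, 1, 1, 1, 1, 1, 129] = cy :=
    congrArg (fun w => pathTrie w [0, 1, 1, 1, 1, 1, 1, 1, 129])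
      (by norm_num : 2400000000 * (7 + 2) ^ (7 + 1) = 103312130400000000)
  have e2 : 2 * 2400000000 * (7 + 2).factorial + (7 + 1 + 1) * (7 + 1) * off = kk := by decide +kernel
  refine final_boundH 7 (by norm_num) (by norm_num) G hA 2400000000 (by norm_num) (by norm_num)
    [0, 1, 1, 1, 1, 1, 1, 1, 129] (by decide +kernel) (cls7 hA) (clsU hA) (inT_hosts hosts_all).1 (T := tb) (T8 := lo)
    (OFF := off) (by rw [e1]; decide +kernel) (by decide +kernel) lo_good types_ok ?_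
  rw [e1, e2]
  exact (inT_hosts hosts_all).2

end Pool.Agent.ICyc.FlagH.K9
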