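import Pool.Agent.Lib.MP_131fce_co.FlagH.K9.Par
import Pool.Agent.Lib.MP_131fce_co.Flag.Cycle

/-!
# The trie of the cycle
-/

set_option autoImplicit false
set_option maxRecDepth 100000

namespace Pool.Agent.ICyc.FlagH.K9

open Pool.Agent.ICyc.FlagH Pool.Agent.ICyc.Flag

/-- the trie of the labelled cycle -/
def cy : Trie := pathTrie 103312130400000000 [0, 1, 1, 1, 1, 1, 1, 1, 129]

end Pool.Agent.ICyc.FlagH.K9
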