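import Pool.Agent.Lib.MP_131fce_co.FlagH.K9.Tab
import Pool.Agent.Lib.MP_131fce_co.FlagH.K9.Lo
import Pool.Agent.Lib.MP_131fce_co.FlagH.KDefs

/-!
# Parameters
-/

set_option autoImplicit false
set_option maxRecDepth 100000

namespace Pool.Agent.ICyc.FlagH.K9

open Pool.Agent.ICyc.FlagH Pool.Agent.ICyc.Flag

/-- offset of the table -/
def off : ℕ := 56473434598580897

/-- bound -/
def kk : ℕ := 4067829115097824584

end Pool.Agent.ICyc.FlagH.K9
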